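import Pool.Agent.N837.LP.AppD

set_option autoImplicit false

/-! # Large least primes in Goldbach representations: a positive proportion in short intervals

For every `δ > 0` there is `C` such that for all `k ≥ 1`, `A ≥ 1`, `0 < η ≤ 1`, all large `X` and
every set `S` of at most `k` pairs `(u, h)`, `1 ≤ u ≤ k`, `|h| ≤ X / 2`: for at least
`X ^ η exp(-exp(C k ^ 2 A / η))` of the even numbers `m` in `(X, X + X ^ η]` all the numbers
`u m + h - p`, `(u, h) ∈ S`, `p` prime, `p ≤ A log X log log X`, are composite, with a prime factor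
at most `X ^ (η δ)`. -/

namespace Pool.Agent.Results.MP_bae66e_nt.LargeLeastPrimes

theorem result : ∀ δ : ℝ, 0 < δ → ∃ C : ℝ, ∀ (k : ℕ) (A η : ℝ), 1 ≤ k → 1 ≤ A → 0 < η →
    η ≤ 1 → ∃ X₀ : ℝ, ∀ X : ℝ, X₀ ≤ X → ∀ S : Finset (ℕ × ℤ), S.card ≤ k →
      (∀ z ∈ S, 1 ≤ z.1 ∧ z.1 ≤ k ∧ |(z.2 : ℝ)| ≤ X / 2) →
      X ^ η * Real.exp (-Real.exp (C * k ^ 2 * A / η)) ≤
        (({m : ℕ | Even m ∧ X < m ∧ (m : ℝ) ≤ X + X ^ η ∧ ∀ z ∈ S, ∀ p : ℕ, p.Prime →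
          (p : ℝ) ≤ A * Real.log X * Real.log (Real.log X) →
            ∃ q : ℕ, q.Prime ∧ (q : ℝ) ≤ X ^ (η * δ) ∧ (q : ℤ) ∣ z.1 * m + z.2 - p ∧
              (q : ℤ) < z.1 * m + z.2 - p}).ncard : ℝ) :=
  fun δ hδ => Pool.Agent.N837.LP.goldbachD δ hδ

end Pool.Agent.Results.MP_bae66e_nt.LargeLeastPrimes
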