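import Pool.Agent.N422.GB.ALL

/-!
# No sieve detects even numbers whose least Goldbach prime exceeds `(log Q)^(4+ε)`

Author: helper422.  Granville, van de Lune and te Riele conjecture that the least prime `g(m)` with `m - g(m)` prime is
`O((log m)^2 loglog m)` for even `m`.  Large values of `g` are found with even `m` for which all the numbers `m - q`, `q ≤ U`
prime, have a small prime factor.  How large values can be detected by sieve methods?

Here we prove a general limit: let `w` be ANY real function of level `Q` (a sum of functions with periods `d ≤ Q`; no condition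
on sign, size or shape).  If `U ≥ (log Q)^(4+ε)` and if `w(N) ≤ 0` for all odd `N` and for all `N` for which there is a prime
`q ≤ U` such that `N - q` is free of prime factors `≤ Q`, then the mean of `w` is `≤ 0`.  So no lower bound sieve of level `Q`
detects even numbers `N` without representations as the sum of a prime `q ≤ (log Q)^(4+ε)` and a `Q`-rough number.

Proof.  For `y = (log Q)^(1+ε')` the number of the primes `q ≤ U` with `N - q` free of primes `≤ y` is `≫ U/(log U log y)` for
all even `N`, by the linear sieve and the theorem of Bombieri and Vinogradov (`GB/LOW4`, helper323).  For a window `(z, z']`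
cut `[1, U]` into intervals of length `≍ δ z`: every residue class modulo `p` hits at most one `q` in each of them.  With the
kernels and the inequality of Jensen from `LR` (helpers 37, 451, 793, 545) this bounds the number of hits with respect to the
positive part `w⁺` (`GB/HXA`, helper234), and the recursion over the scales (`GB/RXA`, helper751) shows that the mean of `w⁺`
times the number of the `q` which remain is positive if the mean of `w` is (`GB/FXG`, helper787, `GB/GOLD`, helper564), but
this mean is `0` by hypothesis.
-/

set_option autoImplicit false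

open Finset

namespace Pool.Agent.Results.MP_bae66e_nt.LeastPrimeUnderAllSieves

/-- the weight `w(N) = ∑_{d ≤ Q} c_d(N mod d)`, an arbitrary real weight of level `Q` -/
noncomputable def weight (Q : ℕ) (c : ℕ → ℕ → ℝ) (N : ℕ) : ℝ := ∑ d ∈ Icc 1 Q, c d (N % d)

/-- the mean value of `F` over the period `Q!` -/
noncomputable def mean (Q : ℕ) (F : ℕ → ℝ) : ℝ := (∑ N ∈ range Q.factorial, F N) / (Q.factorial : ℝ)

/-- For every `ε > 0` there is `Q₀` such that for all `Q ≥ Q₀`, all `U ≥ (log Q)^(4+ε)` and every real weight `w` of level `Q`:
if `w(N) ≤ 0` for all odd `N` and for all `N` for which there is a prime `q ≤ U` such that `N - q` has no prime factor `p ≤ Q`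
(`N ≡ q (mod p)` for no prime `p ≤ Q`), then the mean of `w` is `≤ 0`. -/
theorem result : ∀ ε : ℝ, 0 < ε → ∃ Q₀ : ℕ, ∀ Q : ℕ, Q₀ ≤ Q → ∀ U : ℕ, Real.log Q ^ (4 + ε) ≤ U →
    ∀ c : ℕ → ℕ → ℝ, (∀ N, Odd N → weight Q c N ≤ 0) →
      (∀ N, (∃ q : ℕ, q.Prime ∧ q ≤ U ∧ ∀ p : ℕ, p.Prime → p ≤ Q → ¬ N ≡ q [MOD p]) → weight Q c N ≤ 0) →
      mean Q (weight Q c) ≤ 0 :=
  Pool.Agent.N422.GB.gold_all

end Pool.Agent.Results.MP_bae66e_nt.LeastPrimeUnderAllSieves
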