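import Mathlib
import Pool.Agent.N740.HK.Trials
import Pool.Agent.N740.HK.Sch
import Pool.Agent.N233.TL.Low2

/-!
# The least prime in Goldbach representations in all sequential random models of the primes

The integers are decided one after the other and the conditional probability of choosing `n + 1`,
given the decisions up to `n`, is asymptotic to `1 / log n`, almost surely.  Nothing else is assumed:
no independence and no rate of convergence.  The independent model of Cramér and the random sieve of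
Hawkins are examples.  With `g(m)` the least chosen `p` such that `m - p` is chosen, and
`G(n)` the maximum of `g(m)` over the even `m ≤ n`, we prove `G(n) ~ 2 log² n log log n` almost surely.
-/

set_option autoImplicit false

open MeasureTheory Filter Set ProbabilityTheory
open scoped Topology

namespace Pool.Agent.Results.MP_bae66e_nt.SequentialModels

variable {Ω : Type}

/-- `A n` is the event that `n` is chosen.  The events are adapted to the filtration `ℱ` and the
conditional probability of `A (n + 1)` given `ℱ n`, times `log n`, tends to `1` almost surely. -/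
def SequentialModel [m : MeasurableSpace Ω] (μ : Measure Ω) (ℱ : Filtration ℕ m) (A : ℕ → Set Ω) : Prop :=
  (∀ n, MeasurableSet[ℱ n] (A n)) ∧
  ∀ᵐ ω ∂μ, Tendsto (fun n : ℕ => (μ[(A (n + 1)).indicator (fun _ => (1 : ℝ)) | ℱ n]) ω * Real.log n) atTop (𝓝 1)

/-- The model of Cramér: independent events, `n` is chosen with probability `1 / log n` for `n ≥ 3`. -/
def CramerModel [MeasurableSpace Ω] (μ : Measure Ω) (A : ℕ → Set Ω) : Prop :=
  (∀ n, MeasurableSet (A n)) ∧ iIndepSet A μ ∧ ∀ n : ℕ, 3 ≤ n → μ (A n) = ENNReal.ofReal (1 / Real.log n)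

open Classical in
/-- The random sieve of Hawkins: `2` is chosen, and given the decisions up to `n ≥ 2` the number
`n + 1` is chosen with probability `∏ (1 - 1 / h)`, the product over the chosen `2 ≤ h ≤ n`. -/
def HawkinsSieve [m : MeasurableSpace Ω] (μ : Measure Ω) (ℱ : Filtration ℕ m) (A : ℕ → Set Ω) : Prop :=
  (∀ n, MeasurableSet[ℱ n] (A n)) ∧ A 2 = univ ∧
  ∀ n, 2 ≤ n → μ[(A (n + 1)).indicator (fun _ => (1 : ℝ)) | ℱ n] =ᵐ[μ]
    fun ω => ∏ h ∈ Finset.Icc 2 n, if ω ∈ A h then 1 - 1 / (h : ℝ) else 1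

/-- `m = p + (m - p)` with positive `p` and `m - p`, both in `S` -/
def Rep (S : Set ℕ) (m p : ℕ) : Prop := 0 < p ∧ p < m ∧ p ∈ S ∧ m - p ∈ S

/-- the least `p` with `Rep S m p` (`0` if there is none) -/
noncomputable def g (S : Set ℕ) (m : ℕ) : ℕ := sInf {p | Rep S m p}

open Classical in
/-- the maximum of `g S m` over the even `m` with `K ≤ m ≤ n` -/
noncomputable def G (S : Set ℕ) (K n : ℕ) : ℕ := ((Finset.Icc K n).filter (fun m => Even m)).sup (g S)

open Pool.Agent.N740.HK Pool.Agent.R528.RM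

lemma prod_inv (A : ℕ → Set Ω) (n : ℕ) (ω : Ω) [DecidablePred fun h => ω ∈ A h] :
    (∏ h ∈ Finset.Icc 2 n, if ω ∈ A h then 1 - 1 / (h : ℝ) else 1) = (Y A n ω)⁻¹ := by
  unfold Y
  rw [← Finset.prod_inv_distrib]
  refine Finset.prod_congr rfl fun h hh => ?_
  have h2 : (2 : ℝ) ≤ h := by exact_mod_cast (Finset.mem_Icc.1 hh).1
  by_cases hA : ω ∈ A h
  · rw [if_pos hA, if_pos hA, inv_div]
    field_simp
  · rw [if_neg hA, if_neg hA, inv_one]

lemma log_ratio : Tendsto (fun n : ℕ => (Real.log ((n + 1 : ℕ) : ℝ))⁻¹ * Real.log n) atTop (𝓝 1) := by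
  have h1 : Tendsto (fun n : ℕ => Real.log ((n : ℝ) + 1) - Real.log n) atTop (𝓝 0) := by
    have h1 : Tendsto (fun n : ℕ => 1 + (1 : ℝ) / n) atTop (𝓝 (1 + 0)) :=
      tendsto_const_nhds.add tendsto_one_div_atTop_nhds_zero_nat
    rw [add_zero] at h1
    have h2 := (Real.continuousAt_log (one_ne_zero)).tendsto.comp h1
    rw [Real.log_one] at h2
    refine h2.congr' ?_
    filter_upwards [eventually_gt_atTop 0] with n hn
    have hn' : (0 : ℝ) < n := by exact_mod_cast hn
    show Real.log (1 + 1 / (n : ℝ)) = _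
    rw [← Real.log_div (by positivity) hn'.ne']
    congr 1
    field_simp
  have h2 : Tendsto (fun n : ℕ => Real.log ((n : ℝ) + 1)) atTop atTop :=
    Real.tendsto_log_atTop.comp (tendsto_atTop_add_const_right _ _ tendsto_natCast_atTop_atTop)
  have h3 := h1.div_atTop h2
  have h4 : Tendsto (fun n : ℕ => 1 - (Real.log ((n : ℝ) + 1) - Real.log n) / Real.log ((n : ℝ) + 1)) atTop (𝓝 (1 - 0)) :=
    tendsto_const_nhds.sub h3
  rw [sub_zero] at h4
  refine h4.congr' ?_
  filter_upwards [h2.eventually_gt_atTop 0] with n hn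
  push_cast
  field_simp
  ring

/-- the normalisation -/
noncomputable def X (n : ℕ) : ℝ := Real.log n ^ 2 * Real.log (Real.log n)

lemma one_lt_log {n : ℕ} (h : 3 ≤ n) : 1 < Real.log n := by
  have h' : (3 : ℝ) ≤ n := by exact_mod_cast h
  rw [Real.lt_log_iff_exp_lt (by linarith)]
  have := Real.exp_one_lt_d9
  linarith

lemma X_pos {n : ℕ} (h : 3 ≤ n) : 0 < X n := by
  have h1 := one_lt_log h
  have h2 := Real.log_pos h1
  unfold X
  positivity

lemma X_mono {m n : ℕ} (h : 3 ≤ m) (hmn : m ≤ n) : X m ≤ X n := by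
  have h1 := one_lt_log h
  have h2 : Real.log m ≤ Real.log n := Real.log_le_log (by positivity) (by exact_mod_cast hmn)
  have h3 := Real.log_le_log (by linarith) h2
  have h4 := Real.log_pos h1
  unfold X
  exact mul_le_mul (pow_le_pow_left₀ (by linarith) h2 2) h3 h4.le (by positivity)

lemma tendsto_log : Tendsto (fun n : ℕ => Real.log (n : ℝ)) atTop atTop :=
  Real.tendsto_log_atTop.comp tendsto_natCast_atTop_atTop

lemma X_tendsto : Tendsto X atTop atTop := by
  have e1 : Tendsto (fun n : ℕ => Real.log (n : ℝ) ^ 2) atTop atTop :=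
    (tendsto_pow_atTop (by norm_num)).comp tendsto_log
  exact e1.atTop_mul_atTop₀ (Real.tendsto_log_atTop.comp tendsto_log)

/-- `X` is slowly varying -/
lemma X_quarter {η : ℝ} (hη : 0 < η) (hη1 : η < 1) : ∀ᶠ n : ℕ in atTop, ∀ m : ℕ, n < 4 * m →
    (1 - η) ^ 3 * X n ≤ X m := by
  have h1 : ∀ᶠ n : ℕ in atTop, Real.log 4 ≤ η * Real.log n := (tendsto_log.const_mul_atTop hη).eventually_ge_atTop _
  have h2 : ∀ᶠ n : ℕ in atTop, -Real.log (1 - η) ≤ η * Real.log (Real.log n) :=
    ((Real.tendsto_log_atTop.comp tendsto_log).const_mul_atTop hη).eventually_ge_atTop _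
  filter_upwards [h1, h2, eventually_ge_atTop 3] with n g1 g2 g3 m hm
  have k1 := one_lt_log g3
  have hη' : 0 < 1 - η := by linarith
  have hn0 : (0 : ℝ) < n := by
    have : 0 < n := by omega
    exact_mod_cast this
  have hm0 : (0 : ℝ) < m := by
    have : 0 < m := by omega
    exact_mod_cast this
  have k2 : (1 - η) * Real.log n ≤ Real.log m := by
    have a1 : Real.log n ≤ Real.log (4 * m) := Real.log_le_log hn0 (by exact_mod_cast hm.le)
    rw [Real.log_mul (by norm_num) hm0.ne'] at a1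
    linarith
  have k3 : 0 < (1 - η) * Real.log n := by positivity
  have k4 : (1 - η) * Real.log (Real.log n) ≤ Real.log (Real.log m) := by
    have a1 := Real.log_le_log k3 k2
    rw [Real.log_mul hη'.ne' (by linarith)] at a1
    linarith
  have k5 := Real.log_pos k1
  have k6 : 0 ≤ (1 - η) * Real.log (Real.log n) := by positivity
  have k7 : 0 ≤ Real.log m ^ 2 := by positivity
  unfold X
  calc (1 - η) ^ 3 * (Real.log n ^ 2 * Real.log (Real.log n)) =
        ((1 - η) * Real.log n) ^ 2 * ((1 - η) * Real.log (Real.log n)) := by ring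
    _ ≤ Real.log m ^ 2 * Real.log (Real.log m) := mul_le_mul (pow_le_pow_left₀ k3.le k2 2) k4 k6 k7

/-- from the two bounds to the limit -/
lemma lim {S : Set ℕ}
    (hup : ∀ ε : ℝ, 0 < ε → ∀ᶠ m : ℕ in atTop, (g S m : ℝ) ≤ (2 + ε) * X m)
    (hlow : ∀ ε : ℝ, 0 < ε → ∀ᶠ i : ℕ in atTop, ∃ m, 2 ^ i < m ∧ m ≤ 2 ^ (i + 1) ∧ Even m ∧
      (2 - ε) * X m < g S m) (K : ℕ) :
    Tendsto (fun n : ℕ => (G S K n : ℝ) / X n) atTop (𝓝 2) := by
  rw [tendsto_order]
  constructor
  · intro a ha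
    -- lower bound
    obtain ⟨ε, hε0, hε1, hε⟩ : ∃ ε : ℝ, 0 < ε ∧ ε < 1 ∧ a < (2 - ε) * (1 - ε) ^ 3 := by
      have h1 : ContinuousAt (fun ε : ℝ => (2 - ε) * (1 - ε) ^ 3) 0 := by fun_prop
      have h2 : a < (2 - 0) * (1 - 0 : ℝ) ^ 3 := by norm_num; exact ha
      obtain ⟨r, hr, hr'⟩ := Metric.eventually_nhds_iff.1 (h1.eventually (lt_mem_nhds h2))
      refine ⟨min (r / 2) (1 / 2), by positivity, lt_of_le_of_lt (min_le_right _ _) (by norm_num), ?_⟩
      exact @hr' (min (r / 2) (1 / 2)) (by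
        rw [Real.dist_eq, sub_zero, abs_of_pos (by positivity)]
        exact lt_of_le_of_lt (min_le_left _ _) (by linarith))
    obtain ⟨i₀, hi₀⟩ := eventually_atTop.1 (hlow ε hε0)
    filter_upwards [X_quarter hε0 hε1, eventually_ge_atTop 3, eventually_ge_atTop (2 ^ (i₀ + 1)),
      eventually_ge_atTop (4 * (K + 1))] with n g1 g2 g3 g4
    have hn0 : n ≠ 0 := by omega
    obtain ⟨j, hj⟩ : ∃ j, j = Nat.log 2 n := ⟨_, rfl⟩
    have h1 : 2 ^ j ≤ n := by rw [hj]; exact Nat.pow_log_le_self 2 hn0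
    have h2 : n < 2 ^ (j + 1) := by rw [hj]; exact Nat.lt_pow_succ_log_self (by norm_num) n
    have h3 : i₀ + 1 ≤ j := by
      by_contra hcon
      push Not at hcon
      have : 2 ^ (j + 1) ≤ 2 ^ (i₀ + 1) := Nat.pow_le_pow_right (by norm_num) hcon
      omega
    obtain ⟨i, rfl⟩ : ∃ i, j = i + 1 := ⟨j - 1, by omega⟩
    obtain ⟨m, m1, m2, m3, m4⟩ := hi₀ i (by omega)
    have h4 : n < 4 * m := by
      have : 2 ^ (i + 1 + 1) = 4 * 2 ^ i := by ring
      omega
    have h5 := g1 m h4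
    have h6 : g S m ≤ G S K n := by
      unfold G
      apply Finset.le_sup (f := g S)
      rw [Finset.mem_filter, Finset.mem_Icc]
      exact ⟨⟨by omega, by omega⟩, m3⟩
    have h6' : (g S m : ℝ) ≤ G S K n := by exact_mod_cast h6
    rw [lt_div_iff₀ (X_pos g2)]
    calc a * X n < (2 - ε) * (1 - ε) ^ 3 * X n := mul_lt_mul_of_pos_right hε (X_pos g2)
      _ = (2 - ε) * ((1 - ε) ^ 3 * X n) := by ring
      _ ≤ (2 - ε) * X m := mul_le_mul_of_nonneg_left h5 (by linarith)
      _ ≤ g S m := m4.le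
      _ ≤ _ := h6'
  · intro a ha
    -- upper bound
    obtain ⟨ε, hε⟩ : ∃ ε : ℝ, ε = (a - 2) / 2 := ⟨_, rfl⟩
    have hε0 : 0 < ε := by linarith
    obtain ⟨m₀, hm₀⟩ := eventually_atTop.1 (hup ε hε0)
    obtain ⟨C, hC⟩ : ∃ C : ℕ, ∀ m < max m₀ 3, g S m ≤ C := by
      refine ⟨(Finset.range (max m₀ 3)).sup (g S), fun m hm => ?_⟩
      exact Finset.le_sup (f := g S) (Finset.mem_range.2 hm)
    filter_upwards [X_tendsto.eventually_ge_atTop (C : ℝ), eventually_ge_atTop 3] with n g1 g2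
    have hX := X_pos g2
    rw [div_lt_iff₀ hX]
    have h1 : (G S K n : ℝ) ≤ (2 + ε) * X n := by
      have h2 : G S K n ≤ ⌊(2 + ε) * X n⌋₊ := by
        unfold G
        refine Finset.sup_le fun m hm => ?_
        rw [Finset.mem_filter, Finset.mem_Icc] at hm
        apply Nat.le_floor
        by_cases h : m < max m₀ 3
        · have h3 : (g S m : ℝ) ≤ C := by exact_mod_cast hC m h
          have h4 : X n ≤ (2 + ε) * X n := le_mul_of_one_le_left hX.le (by linarith)
          linarith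
        · push Not at h
          have h3 := hm₀ m (le_trans (le_max_left _ _) h)
          have h4 := X_mono (le_trans (le_max_right _ _) h) hm.1.2
          exact h3.trans (mul_le_mul_of_nonneg_left h4 (by linarith))
      exact (Nat.cast_le.2 h2).trans (Nat.floor_le (by positivity))
    have h5 : (2 + ε) * X n < a * X n := mul_lt_mul_of_pos_right (by linarith) hX
    linarith

end Pool.Agent.Results.MP_bae66e_nt.SequentialModels

open Pool.Agent.Results.MP_bae66e_nt.SequentialModels Pool.Agent.N740.HK Pool.Agent.R528.RM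

/-- The random sieve of Hawkins is a sequential model, the model of Cramér is one for some filtration.
In every sequential model, almost surely: every large integer `m` has a representation
`m = p + (m - p)` with chosen `p`, `m - p`; for every `ε > 0` the least such `p = g(m)` satisfies
`g(m) ≤ (2 + ε) log² m log log m` for all large `m`, and every interval `(2^i, 2^(i+1)]` with `i` large
contains an even `m` with `g(m) > (2 - ε) log² m log log m`; and for every `K` the maximum `G(n)` of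
`g(m)` over the even `m` with `K ≤ m ≤ n` is asymptotic to `2 log² n log log n`. -/
theorem Pool.Agent.Results.MP_bae66e_nt.SequentialModels.result
    {Ω : Type} [m : MeasurableSpace Ω] (μ : Measure Ω) [IsProbabilityMeasure μ] (A : ℕ → Set Ω) :
    (CramerModel μ A → ∃ ℱ : Filtration ℕ m, SequentialModel μ ℱ A) ∧
    ∀ ℱ : Filtration ℕ m,
    (HawkinsSieve μ ℱ A → SequentialModel μ ℱ A) ∧
    (SequentialModel μ ℱ A →
      ∀ᵐ ω ∂μ, (∀ᶠ m : ℕ in atTop, ∃ p, Rep {k | ω ∈ A k} m p) ∧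
        (∀ ε : ℝ, 0 < ε →
          (∀ᶠ m : ℕ in atTop, (g {k | ω ∈ A k} m : ℝ) ≤ (2 + ε) * (Real.log m ^ 2 * Real.log (Real.log m))) ∧
          ∀ᶠ i : ℕ in atTop, ∃ m : ℕ, 2 ^ i < m ∧ m ≤ 2 ^ (i + 1) ∧ Even m ∧
            (2 - ε) * (Real.log m ^ 2 * Real.log (Real.log m)) < g {k | ω ∈ A k} m) ∧
        ∀ K : ℕ, Tendsto (fun n : ℕ => (G {k | ω ∈ A k} K n : ℝ) / (Real.log n ^ 2 * Real.log (Real.log n)))
          atTop (𝓝 2)) := by
  classical
  refine ⟨?_, fun ℱ => ⟨?_, ?_⟩⟩
  · rintro ⟨hA, hi, hp⟩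
    refine ⟨gen hA, gen_meas hA, ?_⟩
    have h1 : ∀ᵐ ω ∂μ, ∀ n, (μ[(A (n + 1)).indicator (fun _ => (1 : ℝ)) | gen hA n]) ω =
        (μ (A (n + 1))).toReal := ae_all_iff.2 fun n => dens_gen hA hi n
    filter_upwards [h1] with ω hω
    refine log_ratio.congr' ?_
    filter_upwards [eventually_ge_atTop 2] with n hn
    rw [hω, hp (n + 1) (by omega), ENNReal.toReal_ofReal, one_div]
    have : 0 ≤ Real.log ((n + 1 : ℕ) : ℝ) := Real.log_natCast_nonneg _
    positivity
  · rintro ⟨h1, h2, h3⟩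
    have hs : Pool.Agent.N740.HK.HS μ ℱ A := ⟨h1, h2, fun n hn => by
      filter_upwards [h3 n hn] with ω hω
      rw [← prod_inv]
      exact hω⟩
    exact ⟨h1, Pool.Agent.N740.HK.hawk_dens hs⟩
  · rintro ⟨hA, hd⟩
    filter_upwards [Pool.Agent.N233.TL.up (μ := μ) hA hd, Pool.Agent.N233.TL.low (μ := μ) hA hd] with ω h1 h2
    have hrep : ∀ᶠ m : ℕ in atTop, ∃ p, Rep {k | ω ∈ A k} m p := by
      filter_upwards [h1 1 one_pos] with m hm
      obtain ⟨p, p1, p2, _, p4, p5⟩ := hm
      exact ⟨p, p1, p2, p4, p5⟩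
    have hup : ∀ ε : ℝ, 0 < ε → ∀ᶠ m : ℕ in atTop, (g {k | ω ∈ A k} m : ℝ) ≤ (2 + ε) * X m := by
      intro ε hε
      filter_upwards [h1 ε hε] with m hm
      obtain ⟨p, p1, p2, p3, p4, p5⟩ := hm
      have h3 : g {k | ω ∈ A k} m ≤ p := Nat.sInf_le ⟨p1, p2, p4, p5⟩
      exact (Nat.cast_le.2 h3).trans p3
    obtain ⟨m₀, hm₀⟩ := eventually_atTop.1 hrep
    have hlow : ∀ ε : ℝ, 0 < ε → ∀ᶠ i : ℕ in atTop, ∃ m : ℕ, 2 ^ i < m ∧ m ≤ 2 ^ (i + 1) ∧ Even m ∧
        (2 - ε) * X m < g {k | ω ∈ A k} m := by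
      intro ε hε
      filter_upwards [h2 ε hε, eventually_ge_atTop m₀] with i hi hi2
      obtain ⟨n, n1, n2, n3, n4⟩ := hi
      refine ⟨n, n1, n2, n3, ?_⟩
      have h9 : i < 2 ^ i := Nat.lt_two_pow_self
      obtain ⟨p, hp⟩ := hm₀ n (by omega)
      have h10 : Rep {k | ω ∈ A k} n (g {k | ω ∈ A k} n) :=
        Nat.sInf_mem (s := {p | Rep {k | ω ∈ A k} n p}) ⟨p, hp⟩
      by_contra hcon
      push Not at hcon
      exact n4 _ h10.1 hcon h10.2.2.1 h10.2.2.2
    exact ⟨hrep, fun ε hε => ⟨hup ε hε, hlow ε hε⟩, fun K => lim hup hlow K⟩
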